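import Pool.Agent.TH80.OMS.SymDefs

/-!
# Hyperbolic sets and Axiom A: definitions
-/

set_option autoImplicit false

open Filter Set Metric
open scoped Manifold ContDiff Topology

namespace Run7.h619.AX

open Pool.Agent.H718R2.G Pool.Agent.TH80.OMS

section

variable (n : ℕ) (N : Type*) [TopologicalSpace N] [ChartedSpace (V n) N] [IsManifold (𝓡 n) ∞ N]

/-- `q` is a continuous function on the tangent bundle of `N` which is a norm on each tangent space (for
instance the norm of a Riemannian metric). -/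
structure IsTanNorm (q : TangentBundle (𝓡 n) N → ℝ) : Prop where
  cont : Continuous q
  add_le : ∀ (x : N) (v w : TangentSpace (𝓡 n) x), q ⟨x, v + w⟩ ≤ q ⟨x, v⟩ + q ⟨x, w⟩
  smul : ∀ (x : N) (c : ℝ) (v : TangentSpace (𝓡 n) x), q ⟨x, c • v⟩ = |c| * q ⟨x, v⟩
  pos : ∀ (x : N) (v : TangentSpace (𝓡 n) x), v ≠ 0 → 0 < q ⟨x, v⟩

end

variable {n : ℕ} {N : Type*} [TopologicalSpace N] [ChartedSpace (V n) N] [IsManifold (𝓡 n) ∞ N]
  {r : ℕ∞}

/-- Over the set `K` the tangent bundle of `N` is the direct sum of the subbundles `Es` and `Eu`, which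
are invariant under the derivative of `F` and continuous. (For two complementary families of subspaces
over a closed set `K` continuity means that both are closed subsets of the tangent bundle.) -/
structure IsSplit (F : DiffM n N r) (K : Set N) (Es Eu : ∀ x : N, Submodule ℝ (TangentSpace (𝓡 n) x)) :
    Prop where
  compl : ∀ x ∈ K, IsCompl (Es x) (Eu x)
  map_s : ∀ x ∈ K, (Es x).map (mfderiv (𝓡 n) (𝓡 n) F x).toLinearMap = Es (F x)
  map_u : ∀ x ∈ K, (Eu x).map (mfderiv (𝓡 n) (𝓡 n) F x).toLinearMap = Eu (F x)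
  closed_s : IsClosed {z : TangentBundle (𝓡 n) N | z.1 ∈ K ∧ z.2 ∈ Es z.1}
  closed_u : IsClosed {z : TangentBundle (𝓡 n) N | z.1 ∈ K ∧ z.2 ∈ Eu z.1}

/-- The set `K` is hyperbolic for the diffeomorphism `F`: it is closed, `F(K) = K`, and there are a
continuous splitting `T_K N = Es ⊕ Eu` invariant under `DF`, a continuous norm on the tangent bundle and
constants `C > 0`, `0 < μ < 1` such that `‖DF^m v‖ ≤ C μ^m ‖v‖` for `v` in `Es`, and
`‖DF^(-m) v‖ ≤ C μ^m ‖v‖` for `v` in `Eu`, for all `m ≥ 0`. -/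
def Hyperbolic (F : DiffM n N r) (K : Set N) : Prop :=
  IsClosed K ∧ F '' K = K ∧ ∃ (q : TangentBundle (𝓡 n) N → ℝ)
    (Es Eu : ∀ x : N, Submodule ℝ (TangentSpace (𝓡 n) x)) (C μ : ℝ), IsTanNorm n N q ∧
    IsSplit F K Es Eu ∧ 0 < C ∧ 0 < μ ∧ μ < 1 ∧
    (∀ x ∈ K, ∀ v ∈ Es x, ∀ m : ℕ,
      q (tangentMap (𝓡 n) (𝓡 n) (F^[m]) ⟨x, v⟩) ≤ C * μ ^ m * q ⟨x, v⟩) ∧
    (∀ x ∈ K, ∀ v ∈ Eu x, ∀ m : ℕ,
      q (tangentMap (𝓡 n) (𝓡 n) (F.symm^[m]) ⟨x, v⟩) ≤ C * μ ^ m * q ⟨x, v⟩)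

/-- Axiom A: the nonwandering set is hyperbolic, and the periodic points are dense in it. -/
def AxiomA (F : DiffM n N r) : Prop :=
  Hyperbolic F (Omega F) ∧ Omega F ⊆ closure (Per F)

end Run7.h619.AX
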