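import Pool.Agent.Run7.h619.AX.Tan

/-!
# Hyperbolic sets from estimates
-/

set_option autoImplicit false
set_option linter.unusedSectionVars false

open Filter Set Metric
open scoped Manifold ContDiff Topology

namespace Run7.h619.AX

open Pool.Agent.H718R2.G Pool.Agent.TH80.OMS Run7.h619.LA

section

variable {n : ℕ} {N : Type*} [TopologicalSpace N] [ChartedSpace (V n) N] [IsManifold (𝓡 n) ∞ N]

theorem iter_smooth {F : N → N} (hF : ContMDiff (𝓡 n) (𝓡 n) 1 F) (m : ℕ) :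
    ContMDiff (𝓡 n) (𝓡 n) 1 (F^[m]) := by
  induction m with
  | zero => exact contMDiff_id
  | succ m ih =>
    rw [Function.iterate_succ']
    exact hF.comp ih

theorem diff_of {F : N → N} (hF : ContMDiff (𝓡 n) (𝓡 n) 1 F) : MDifferentiable (𝓡 n) (𝓡 n) F :=
  hF.mdifferentiable (by simp)

theorem Dv_iter {F : N → N} (hF : ContMDiff (𝓡 n) (𝓡 n) 1 F) (m : ℕ) (x : N) (v : V n) :
    Dv n n (F^[m + 1]) x v = Dv n n F (F^[m] x) (Dv n n (F^[m]) x v) := by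
  rw [Function.iterate_succ', Dv_comp x (diff_of hF _) (diff_of (iter_smooth hF m) _)]
  rfl

theorem Dv_inv {F F' : N → N} (hF : ContMDiff (𝓡 n) (𝓡 n) 1 F) (hF' : ContMDiff (𝓡 n) (𝓡 n) 1 F')
    (h : ∀ x, F' (F x) = x) (x : N) (v : V n) : Dv n n F' (F x) (Dv n n F x v) = v := by
  have h1 := Dv_comp x (diff_of hF' (F x)) (diff_of hF x)
  have h2 : F' ∘ F = id := funext h
  rw [h2, Dv_id] at h1
  exact (congrArg (fun L => L v) h1).symm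

theorem iter_inv {F F' : N → N} (h : ∀ x, F' (F x) = x) (m : ℕ) (x : N) :
    F'^[m] (F^[m] x) = x := (Function.LeftInverse.iterate h m) x

theorem iter_mem {F : N → N} {K : Set N} (hK : ∀ x ∈ K, F x ∈ K) (m : ℕ) {x : N} (hx : x ∈ K) :
    F^[m] x ∈ K := by
  induction m with
  | zero => exact hx
  | succ m ih => rw [Function.iterate_succ_apply']; exact hK _ ih

theorem iter_Dmem {F : N → N} (hF : ContMDiff (𝓡 n) (𝓡 n) 1 F) {K : Set N}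
    (hK : ∀ x ∈ K, F x ∈ K) {E : N → Submodule ℝ (V n)}
    (hE : ∀ x ∈ K, ∀ v ∈ E x, Dv n n F x v ∈ E (F x)) (m : ℕ) {x : N} (hx : x ∈ K) {v : V n}
    (hv : v ∈ E x) : Dv n n (F^[m]) x v ∈ E (F^[m] x) := by
  induction m with
  | zero =>
    have : (F^[0] : N → N) = id := rfl
    rw [this, Dv_id]
    exact hv
  | succ m ih =>
    rw [Dv_iter hF, Function.iterate_succ_apply']
    exact hE _ (iter_mem hK m hx) _ ih

theorem tanNorm_sub {q : TangentBundle (𝓡 n) N → ℝ} (hq : IsTanNorm n N q) (x : N) (v w : V n) :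
    q ⟨x, (v - w : V n)⟩ ≤ q ⟨x, v⟩ + q ⟨x, w⟩ := by
  have h1 := hq.add_le x v (-w : V n)
  have h2 := hq.smul x (-1) w
  have h3 : ((-1 : ℝ) • w : V n) = -w := by rw [neg_smul, one_smul]
  have h4 : q ⟨x, ((-1 : ℝ) • w : V n)⟩ = |(-1 : ℝ)| * q ⟨x, w⟩ := h2
  rw [h3, abs_neg, abs_one, one_mul] at h4
  have h5 : q ⟨x, (v + -w : V n)⟩ ≤ q ⟨x, v⟩ + q ⟨x, (-w : V n)⟩ := h1
  rw [h4, ← sub_eq_add_neg] at h5
  exact h5

/-- the contracted subbundle is closed -/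
theorem closed_of {F F' : N → N} (hF : ContMDiff (𝓡 n) (𝓡 n) 1 F)
    (hF' : ContMDiff (𝓡 n) (𝓡 n) 1 F') (hinv : ∀ x, F' (F x) = x) {K : Set N} (hKc : IsClosed K)
    (hK : ∀ x ∈ K, F x ∈ K) {q : TangentBundle (𝓡 n) N → ℝ} (hq : IsTanNorm n N q)
    {Es Eu : N → Submodule ℝ (V n)} (hcompl : ∀ x ∈ K, IsCompl (Es x) (Eu x))
    (hEu : ∀ x ∈ K, ∀ v ∈ Eu x, Dv n n F x v ∈ Eu (F x)) {C μ : ℝ} (hC : 0 < C) (hμ0 : 0 < μ)
    (hμ1 : μ < 1)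
    (hs : ∀ x ∈ K, ∀ v ∈ Es x, ∀ m : ℕ, q ⟨F^[m] x, Dv n n (F^[m]) x v⟩ ≤ C * μ ^ m * q ⟨x, v⟩)
    (hu : ∀ x ∈ K, ∀ v ∈ Eu x, ∀ m : ℕ, q ⟨F'^[m] x, Dv n n (F'^[m]) x v⟩ ≤ C * μ ^ m * q ⟨x, v⟩) :
    IsClosed {z : TangentBundle (𝓡 n) N | z.1 ∈ K ∧ (z.2 : V n) ∈ Es z.1} := by
  have core : ∀ x ∈ K, ∀ v : V n,
      (∀ m : ℕ, q ⟨F^[m] x, Dv n n (F^[m]) x v⟩ ≤ C * μ ^ m * q ⟨x, v⟩) → v ∈ Es x := by
    intro x hx' v hv'
    have htop : v ∈ Es x ⊔ Eu x := by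
      rw [(hcompl x hx').sup_eq_top]
      trivial
    obtain ⟨vs, hvs, vu, hvu, hsum⟩ := Submodule.mem_sup.1 htop
    have key : ∀ m : ℕ, q ⟨x, vu⟩ ≤ C * μ ^ m * (C * μ ^ m * (q ⟨x, v⟩ + q ⟨x, vs⟩)) := by
      intro m
      have h1 := hu (F^[m] x) (iter_mem hK m hx') _ (iter_Dmem hF hK hEu m hx' hvu) m
      have h2 := Dv_inv (iter_smooth hF m) (iter_smooth hF' m) (iter_inv hinv m) x vu
      rw [h2, iter_inv hinv] at h1
      refine h1.trans ?_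
      apply mul_le_mul_of_nonneg_left _ (by positivity)
      have h3 : Dv n n (F^[m]) x vu = Dv n n (F^[m]) x v - Dv n n (F^[m]) x vs := by
        have h4 : vu = v - vs := by rw [← hsum]; abel
        rw [h4]
        exact map_sub _ _ _
      rw [h3]
      refine (tanNorm_sub hq _ _ _).trans ?_
      have h5 := hs x hx' vs hvs m
      have h6 := hv' m
      rw [mul_add]
      exact add_le_add h6 h5
    have hlim : Tendsto (fun m : ℕ => C * μ ^ m * (C * μ ^ m * (q ⟨x, v⟩ + q ⟨x, vs⟩))) atTop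
        (𝓝 0) := by
      have h1 := tendsto_pow_atTop_nhds_zero_of_lt_one hμ0.le hμ1
      have h2 := (h1.const_mul C).mul ((h1.const_mul C).mul_const (q ⟨x, v⟩ + q ⟨x, vs⟩))
      have h3 : C * 0 * (C * 0 * (q ⟨x, v⟩ + q ⟨x, vs⟩)) = 0 := by ring
      rw [h3] at h2
      exact h2
    have h0 : q ⟨x, vu⟩ ≤ 0 := ge_of_tendsto' hlim key
    have hvu0 : vu = 0 := by
      by_contra hne
      have := hq.pos x vu hne
      linarith
    rw [hvu0, add_zero] at hsum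
    rw [← hsum]
    exact hvs
  have e : {z : TangentBundle (𝓡 n) N | z.1 ∈ K ∧ (z.2 : V n) ∈ Es z.1} =
      {z | z.1 ∈ K} ∩ ⋂ m : ℕ, {z | q (tangentMap (𝓡 n) (𝓡 n) (F^[m]) z) ≤ C * μ ^ m * q z} := by
    apply Subset.antisymm
    · rintro ⟨x, v⟩ ⟨hx, hv⟩
      refine ⟨hx, mem_iInter.2 fun m => hs x hx v hv m⟩
    · rintro ⟨x, v⟩ ⟨hx, hv⟩
      exact ⟨hx, core x hx v fun m => mem_iInter.1 hv m⟩
  rw [e]
  refine IsClosed.inter ?_ (isClosed_iInter fun m => ?_)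
  · exact hKc.preimage (FiberBundle.continuous_proj (V n) (TangentSpace (𝓡 n) : N → Type _))
  · exact isClosed_le (hq.cont.comp ((iter_smooth hF m).continuous_tangentMap le_rfl))
      (continuous_const.mul hq.cont)

variable {r : ℕ∞}

/-- hyperbolicity from the estimates -/
theorem hyperbolic_of (hr : 1 ≤ r) (F : DiffM n N r) {K : Set N} (hKc : IsClosed K)
    (hK : ∀ x ∈ K, F x ∈ K) (hK' : ∀ x ∈ K, F.symm x ∈ K) {q : TangentBundle (𝓡 n) N → ℝ}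
    (hq : IsTanNorm n N q)
    {Es Eu : N → Submodule ℝ (V n)} (hcompl : ∀ x ∈ K, IsCompl (Es x) (Eu x))
    (hEs : ∀ x ∈ K, ∀ v ∈ Es x, Dv n n F x v ∈ Es (F x))
    (hEu : ∀ x ∈ K, ∀ v ∈ Eu x, Dv n n F x v ∈ Eu (F x))
    (hEs' : ∀ x ∈ K, ∀ v ∈ Es x, Dv n n F.symm x v ∈ Es (F.symm x))
    (hEu' : ∀ x ∈ K, ∀ v ∈ Eu x, Dv n n F.symm x v ∈ Eu (F.symm x)) {C μ : ℝ} (hC : 0 < C)
    (hμ0 : 0 < μ) (hμ1 : μ < 1)
    (hs : ∀ x ∈ K, ∀ v ∈ Es x, ∀ m : ℕ, q ⟨F^[m] x, Dv n n (F^[m]) x v⟩ ≤ C * μ ^ m * q ⟨x, v⟩)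
    (hu : ∀ x ∈ K, ∀ v ∈ Eu x, ∀ m : ℕ,
      q ⟨F.symm^[m] x, Dv n n (F.symm^[m]) x v⟩ ≤ C * μ ^ m * q ⟨x, v⟩) : Hyperbolic F K := by
  have hr' : (1 : WithTop ℕ∞) ≤ (r : WithTop ℕ∞) := by exact_mod_cast hr
  have hF : ContMDiff (𝓡 n) (𝓡 n) 1 F := F.contMDiff.of_le hr'
  have hF' : ContMDiff (𝓡 n) (𝓡 n) 1 F.symm := F.symm.contMDiff.of_le hr'
  have hinv : ∀ x, F.symm (F x) = x := F.symm_apply_apply
  have hinv' : ∀ x, F (F.symm x) = x := F.apply_symm_apply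
  have hmap : ∀ (E : N → Submodule ℝ (V n)), (∀ x ∈ K, ∀ v ∈ E x, Dv n n F x v ∈ E (F x)) →
      (∀ x ∈ K, ∀ v ∈ E x, Dv n n F.symm x v ∈ E (F.symm x)) → ∀ x ∈ K,
      (E x).map (Dv n n F x).toLinearMap = E (F x) := by
    intro E h1 h2 x hx
    apply le_antisymm
    · rintro _ ⟨v, hv, rfl⟩
      exact h1 x hx v hv
    · intro w hw
      refine ⟨Dv n n F.symm (F x) w, ?_, ?_⟩
      · have h3 := h2 (F x) (hK x hx) w hw
        rw [hinv] at h3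
        exact h3
      · have h4 := Dv_inv hF' hF hinv' (F x) w
        rw [hinv] at h4
        exact h4
  refine ⟨hKc, ?_, q, Es, Eu, C, μ, hq, ⟨hcompl, hmap Es hEs hEs', hmap Eu hEu hEu', ?_, ?_⟩, hC,
    hμ0, hμ1, hs, hu⟩
  · apply Subset.antisymm
    · rintro _ ⟨x, hx, rfl⟩
      exact hK x hx
    · intro x hx
      exact ⟨F.symm x, hK' x hx, hinv' x⟩
  · exact closed_of hF hF' hinv hKc hK hq hcompl hEu hC hμ0 hμ1 hs hu
  · exact closed_of hF' hF hinv' hKc hK' hq (fun x hx => (hcompl x hx).symm) hEs' hC hμ0 hμ1 hu hs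

end

end Run7.h619.AX
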