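import Mathlib

/-!
# Linear isomorphisms without bounded orbits
-/

set_option autoImplicit false
set_option linter.unusedSectionVars false

open Filter Set Metric
open scoped Topology

namespace Run7.h619.LA

section

variable {E : Type*} [NormedAddCommGroup E] [NormedSpace ℝ E]

theorem z0 (A : E ≃L[ℝ] E) (v : E) : (A ^ (0 : ℤ)) v = v := by rw [zpow_zero]; rfl

theorem zadd (A : E ≃L[ℝ] E) (i j : ℤ) (v : E) : (A ^ (i + j)) v = (A ^ i) ((A ^ j) v) := by
  rw [zpow_add]; rfl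

theorem z1 (A : E ≃L[ℝ] E) (v : E) : (A ^ (1 : ℤ)) v = A v := by rw [zpow_one]

theorem zsucc (A : E ≃L[ℝ] E) (i : ℤ) (v : E) : (A ^ (i + 1)) v = A ((A ^ i) v) := by
  rw [add_comm, zadd, z1]

theorem zsucc' (A : E ≃L[ℝ] E) (i : ℤ) (v : E) : (A ^ (i + 1)) v = (A ^ i) (A v) := by
  rw [zadd, z1]

/-- the orbit of `v` is bounded for the times in `J` -/
def Bd (A : E ≃L[ℝ] E) (J : Set ℤ) (v : E) : Prop := ∃ C : ℝ, ∀ i ∈ J, ‖(A ^ i) v‖ ≤ C

/-- the vectors whose orbits are bounded for the times in `J` -/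
def Sub (A : E ≃L[ℝ] E) (J : Set ℤ) : Submodule ℝ E where
  carrier := {v | Bd A J v}
  zero_mem' := ⟨0, fun i _ => by rw [map_zero, norm_zero]⟩
  add_mem' := by
    rintro v w ⟨C, hC⟩ ⟨D, hD⟩
    exact ⟨C + D, fun i hi => by
      rw [map_add]
      exact (norm_add_le _ _).trans (add_le_add (hC i hi) (hD i hi))⟩
  smul_mem' := by
    rintro c v ⟨C, hC⟩
    exact ⟨|c| * C, fun i hi => by
      rw [map_smul, norm_smul, Real.norm_eq_abs]
      exact mul_le_mul_of_nonneg_left (hC i hi) (abs_nonneg _)⟩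

theorem mem_Sub {A : E ≃L[ℝ] E} {J : Set ℤ} {v : E} : v ∈ Sub A J ↔ Bd A J v := Iff.rfl

variable [FiniteDimensional ℝ E]

theorem cpt (A : E ≃L[ℝ] E) (J : ℕ → Set ℤ) (D : ℝ)
    (h : ∀ i, ∃ u : E, ‖u‖ = 1 ∧ ∀ l ∈ J i, ‖(A ^ l) u‖ ≤ D) :
    ∃ u : E, ‖u‖ = 1 ∧ ∀ l : ℤ, (∀ᶠ i in atTop, l ∈ J i) → ‖(A ^ l) u‖ ≤ D := by
  choose u hu hul using h
  have : ProperSpace E := FiniteDimensional.proper ℝ E
  obtain ⟨v, hv, φ, hφ, hlim⟩ := (isCompact_sphere (0 : E) 1).tendsto_subseq (x := u)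
    (fun i => by simp [hu i])
  refine ⟨v, by simpa using hv, fun l hl => ?_⟩
  have h1 : Tendsto (fun j => ‖(A ^ l) (u (φ j))‖) atTop (𝓝 ‖(A ^ l) v‖) :=
    ((A ^ l).continuous.norm.tendsto v).comp hlim
  refine le_of_tendsto h1 ?_
  filter_upwards [hφ.tendsto_atTop.eventually hl] with j hj
  exact hul _ l hj

/-- if no forward orbit is bounded, then all backward orbits are bounded -/
theorem back (A : E ≃L[ℝ] E) (h : ∀ v, Bd A {i | 0 ≤ i} v → v = 0) :
    ∃ K : ℝ, 0 < K ∧ ∀ (v : E) (i : ℕ), ‖(A ^ (-(i : ℤ))) v‖ ≤ K * ‖v‖ := by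
  by_contra hcon
  push Not at hcon
  obtain ⟨M, hM1, hM⟩ : ∃ M : ℝ, 1 ≤ M ∧ ∀ v, ‖A.symm v‖ ≤ M * ‖v‖ :=
    ⟨max 1 ‖(A.symm : E →L[ℝ] E)‖, le_max_left _ _, fun v =>
      ((A.symm : E →L[ℝ] E).le_opNorm v).trans
        (mul_le_mul_of_nonneg_right (le_max_right _ _) (norm_nonneg _))⟩
  have grow : ∀ (i : ℕ) (v : E), ‖(A ^ (-(i : ℤ))) v‖ ≤ M ^ i * ‖v‖ := by
    intro i v
    induction i with
    | zero => rw [Nat.cast_zero, neg_zero, z0, pow_zero, one_mul]
    | succ i ih =>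
      have e : -((i + 1 : ℕ) : ℤ) = -1 + -(i : ℤ) := by push_cast; ring
      have e' : ∀ w, (A ^ (-1 : ℤ)) w = A.symm w := fun w => by rw [zpow_neg_one]; rfl
      rw [e, zadd, e', pow_succ]
      refine (hM _).trans ?_
      calc M * ‖(A ^ (-(i : ℤ))) v‖ ≤ M * (M ^ i * ‖v‖) :=
            mul_le_mul_of_nonneg_left ih (by linarith)
        _ = M ^ i * M * ‖v‖ := by ring
  obtain ⟨u, hu, hul⟩ := cpt A (fun j => {l | 0 ≤ l ∧ l ≤ j}) 1 (by
    intro j
    obtain ⟨v, i, hi⟩ := hcon (M ^ j) (by positivity)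
    obtain ⟨s, hs, hmax⟩ := Finset.exists_max_image (Finset.range (i + 1))
      (fun s : ℕ => ‖(A ^ (-(s : ℤ))) v‖) ⟨0, by simp⟩
    have h1 := hmax i (by simp)
    have hsj : j < s := by
      by_contra hle
      have h2 : M ^ s ≤ M ^ j := pow_le_pow_right₀ hM1 (by omega)
      have h3 := mul_le_mul_of_nonneg_right h2 (norm_nonneg v)
      have h4 := grow s v
      linarith
    obtain ⟨R, hR⟩ : ∃ R, R = ‖(A ^ (-(s : ℤ))) v‖ := ⟨_, rfl⟩
    have hR0 : 0 < R := by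
      have h2 : 0 ≤ M ^ j * ‖v‖ := by positivity
      linarith
    refine ⟨R⁻¹ • (A ^ (-(s : ℤ))) v, ?_, ?_⟩
    · rw [norm_smul, norm_inv, Real.norm_of_nonneg hR0.le, ← hR, inv_mul_cancel₀ hR0.ne']
    · rintro l ⟨hl0, hlj⟩
      rw [map_smul, norm_smul, norm_inv, Real.norm_of_nonneg hR0.le, ← zadd, inv_mul_le_iff₀ hR0,
        mul_one]
      obtain ⟨a, rfl⟩ := Int.eq_ofNat_of_zero_le hl0
      have h2 : ((a : ℕ) : ℤ) + -(s : ℤ) = -((s - a : ℕ) : ℤ) := by
        have : a ≤ s := by omega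
        push_cast [this]
        ring
      rw [h2, hR]
      apply hmax
      rw [Finset.mem_range] at hs ⊢
      omega)
  have h0 := h u ⟨1, fun l hl => hul l (by
    filter_upwards [eventually_ge_atTop l.toNat] with i hi
    have : 0 ≤ l := hl
    exact ⟨hl, by omega⟩)⟩
  rw [h0, norm_zero] at hu
  exact zero_ne_one hu

/-- bounded forward orbits decrease exponentially fast -/
theorem contr (A : E ≃L[ℝ] E) (W : Submodule ℝ E) (hW : ∀ v ∈ W, A v ∈ W)
    (hb : ∀ v ∈ W, Bd A {i | 0 ≤ i} v) (hyp : ∀ v, Bd A univ v → v = 0) :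
    ∃ C μ : ℝ, 0 < C ∧ 0 < μ ∧ μ < 1 ∧ ∀ v ∈ W, ∀ i : ℕ, ‖(A ^ (i : ℤ)) v‖ ≤ C * μ ^ i * ‖v‖ := by
  obtain ⟨K, hK1, hK⟩ : ∃ K : ℝ, 1 ≤ K ∧ ∀ v ∈ W, ∀ i : ℕ, ‖(A ^ (i : ℤ)) v‖ ≤ K * ‖v‖ := by
    obtain ⟨K, hK⟩ := banach_steinhaus
      (g := fun i : ℕ => ((A ^ (i : ℤ) : E ≃L[ℝ] E) : E →L[ℝ] E).comp W.subtypeL) (by
        intro v
        obtain ⟨C, hC⟩ := hb v v.2
        exact ⟨C, fun i => hC i (Int.natCast_nonneg i)⟩)
    refine ⟨max 1 K, le_max_left _ _, fun v hv i => ?_⟩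
    have h1 := (((A ^ (i : ℤ) : E ≃L[ℝ] E) : E →L[ℝ] E).comp W.subtypeL).le_opNorm ⟨v, hv⟩
    exact h1.trans (mul_le_mul_of_nonneg_right ((hK i).trans (le_max_right _ _)) (norm_nonneg _))
  have hWi : ∀ (i : ℕ), ∀ v ∈ W, (A ^ (i : ℤ)) v ∈ W := by
    intro i
    induction i with
    | zero => intro v hv; rw [Nat.cast_zero, z0]; exact hv
    | succ i ih =>
      intro v hv
      rw [Nat.cast_succ, zsucc]
      exact hW _ (ih v hv)
  -- some power halves the norm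
  obtain ⟨i0, hi0, hhalf⟩ : ∃ i0 : ℕ, 1 ≤ i0 ∧ ∀ v ∈ W, ‖(A ^ (i0 : ℤ)) v‖ ≤ 1 / 2 * ‖v‖ := by
    by_contra hcon
    push Not at hcon
    obtain ⟨u, hu, hul⟩ := cpt A (fun j => {l | -(j : ℤ) ≤ l ∧ l ≤ j}) (2 * K * K) (by
      intro j
      obtain ⟨v, hv, hvj⟩ := hcon (2 * (j + 1)) (by omega)
      obtain ⟨w, hw⟩ : ∃ w, w = (A ^ ((j + 1 : ℕ) : ℤ)) v := ⟨_, rfl⟩
      have hwW : w ∈ W := by rw [hw]; exact hWi _ v hv
      have h2 : (A ^ ((j + 1 : ℕ) : ℤ)) w = (A ^ ((2 * (j + 1) : ℕ) : ℤ)) v := by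
        rw [hw, ← zadd]
        congr 2
        push_cast
        ring
      have h3 := hK w hwW (j + 1)
      rw [h2] at h3
      have hv0 : 0 ≤ ‖v‖ := norm_nonneg v
      have hw0 : 0 < ‖w‖ := by
        by_contra h4
        have h5 : ‖w‖ = 0 := le_antisymm (not_lt.1 h4) (norm_nonneg _)
        rw [h5, mul_zero] at h3
        linarith
      refine ⟨‖w‖⁻¹ • w, ?_, ?_⟩
      · rw [norm_smul, norm_inv, norm_norm, inv_mul_cancel₀ hw0.ne']
      · rintro l ⟨hl1, hl2⟩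
        rw [map_smul, norm_smul, norm_inv, norm_norm, inv_mul_le_iff₀ hw0, hw, ← zadd]
        obtain ⟨a, ha⟩ := Int.eq_ofNat_of_zero_le (show 0 ≤ l + ((j + 1 : ℕ) : ℤ) by push_cast; linarith)
        rw [ha, ← hw]
        refine (hK v hv a).trans ?_
        have h5 : ‖v‖ ≤ 2 * K * ‖w‖ := by nlinarith
        calc K * ‖v‖ ≤ K * (2 * K * ‖w‖) := mul_le_mul_of_nonneg_left h5 (by linarith)
          _ = ‖w‖ * (2 * K * K) := by ring)
    have h0 := hyp u ⟨2 * K * K, fun l _ => hul l (by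
      filter_upwards [eventually_ge_atTop l.natAbs] with i hi
      exact ⟨by omega, by omega⟩)⟩
    rw [h0, norm_zero] at hu
    exact zero_ne_one hu
  have hpow : ∀ (q : ℕ), ∀ v ∈ W, ‖(A ^ ((q * i0 : ℕ) : ℤ)) v‖ ≤ (1 / 2) ^ q * ‖v‖ := by
    intro q
    induction q with
    | zero => intro v _; rw [zero_mul, Nat.cast_zero, z0, pow_zero, one_mul]
    | succ q ih =>
      intro v hv
      have e : (((q + 1) * i0 : ℕ) : ℤ) = (i0 : ℤ) + ((q * i0 : ℕ) : ℤ) := by push_cast; ring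
      rw [e, zadd, pow_succ]
      refine (hhalf _ (hWi _ v hv)).trans ?_
      have := ih v hv
      calc 1 / 2 * ‖(A ^ ((q * i0 : ℕ) : ℤ)) v‖ ≤ 1 / 2 * ((1 / 2) ^ q * ‖v‖) :=
            mul_le_mul_of_nonneg_left this (by norm_num)
        _ = (1 / 2) ^ q * (1 / 2) * ‖v‖ := by ring
  have hi0' : (1 : ℝ) ≤ i0 := by exact_mod_cast hi0
  obtain ⟨μ, hμ⟩ : ∃ μ : ℝ, μ = 1 + -(1 / (2 * i0)) := ⟨_, rfl⟩
  have h2i : 1 / (2 * (i0 : ℝ)) ≤ 1 / 2 := by
    apply one_div_le_one_div_of_le (by norm_num)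
    linarith
  have h2i' : 0 < 1 / (2 * (i0 : ℝ)) := by positivity
  have hμ0 : 0 < μ := by rw [hμ]; linarith
  have hμ1 : μ < 1 := by rw [hμ]; linarith
  have hμi : 1 / 2 ≤ μ ^ i0 := by
    have h1 := one_add_mul_le_pow (a := -(1 / (2 * (i0 : ℝ)))) (by linarith) i0
    rw [← hμ] at h1
    refine le_trans (le_of_eq ?_) h1
    field_simp
    ring
  refine ⟨2 * K, μ, by linarith, hμ0, hμ1, fun v hv i => ?_⟩
  obtain ⟨q, s, hs, hqs⟩ : ∃ q s : ℕ, s < i0 ∧ i = q * i0 + s :=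
    ⟨i / i0, i % i0, Nat.mod_lt _ (by omega), by rw [mul_comm]; exact (Nat.div_add_mod i i0).symm⟩
  have e : (i : ℤ) = (s : ℤ) + ((q * i0 : ℕ) : ℤ) := by rw [hqs]; push_cast; ring
  rw [e, zadd]
  refine (hK _ (hWi _ v hv) s).trans ?_
  have h1 : ((1 : ℝ) / 2) ^ q ≤ μ ^ (q * i0) := by
    rw [mul_comm, pow_mul]
    exact pow_le_pow_left₀ (by norm_num) hμi q
  have h2 : μ ^ (q * i0) ≤ 2 * μ ^ i := by
    have h3 : μ ^ i = μ ^ (q * i0) * μ ^ s := by rw [hqs, pow_add]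
    have h4 : μ ^ i0 ≤ μ ^ s := pow_le_pow_of_le_one hμ0.le hμ1.le hs.le
    have h5 : 0 < μ ^ (q * i0) := by positivity
    rw [h3]
    nlinarith
  calc K * ‖(A ^ ((q * i0 : ℕ) : ℤ)) v‖ ≤ K * ((1 / 2) ^ q * ‖v‖) :=
        mul_le_mul_of_nonneg_left (hpow q v hv) (by linarith)
    _ ≤ K * ((2 * μ ^ i) * ‖v‖) := by
        apply mul_le_mul_of_nonneg_left _ (by linarith)
        exact mul_le_mul_of_nonneg_right (h1.trans h2) (norm_nonneg _)
    _ = 2 * K * μ ^ i * ‖v‖ := by ring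

/-- **Splitting.** -/
theorem split (A : E ≃L[ℝ] E) (hyp : ∀ v, Bd A univ v → v = 0) :
    IsCompl (Sub A {i | 0 ≤ i}) (Sub A {i | i ≤ 0}) := by
  obtain ⟨S, hS⟩ : ∃ S, S = Sub A {i | 0 ≤ i} := ⟨_, rfl⟩
  rw [← hS]
  have hSA : ∀ v ∈ S, A v ∈ S := by
    intro v hv
    rw [hS] at hv ⊢
    obtain ⟨C, hC⟩ := hv
    exact ⟨C, fun i hi => by
      rw [← zsucc']
      exact hC _ (by
        have : (0 : ℤ) ≤ i := hi
        show (0 : ℤ) ≤ i + 1
        omega)⟩
  obtain ⟨C, μ, hC, hμ0, hμ1, hcon⟩ := contr A S hSA (fun v hv => by rw [hS] at hv; exact hv) hyp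
  refine ⟨?_, ?_⟩
  · rw [Submodule.disjoint_def]
    intro v h1 h2
    rw [hS] at h1
    obtain ⟨C1, h1⟩ := h1
    obtain ⟨C2, h2⟩ := h2
    refine hyp v ⟨max C1 C2, fun i _ => ?_⟩
    rcases le_total 0 i with hi | hi
    · exact (h1 i hi).trans (le_max_left _ _)
    · exact (h2 i hi).trans (le_max_right _ _)
  · obtain ⟨W, hW⟩ := S.exists_isCompl
    obtain ⟨a, ha⟩ : ∃ a : S →ₗ[ℝ] S, ∀ x : S, (a x : E) = A x :=
      ⟨(A : E →ₗ[ℝ] E).restrict hSA, fun x => rfl⟩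
    obtain ⟨d, hd⟩ : ∃ d : W →ₗ[ℝ] W, d = W.projectionOnto S hW.symm ∘ₗ (A : E →ₗ[ℝ] E) ∘ₗ W.subtype :=
      ⟨_, rfl⟩
    obtain ⟨b, hb⟩ : ∃ b : W →ₗ[ℝ] S, b = S.projectionOnto W hW ∘ₗ (A : E →ₗ[ℝ] E) ∘ₗ W.subtype :=
      ⟨_, rfl⟩
    have hAw : ∀ w : W, A w = (b w : E) + (d w : E) := by
      intro w
      rw [hb, hd]
      exact (Submodule.projection_add_projection_eq_self hW (A w)).symm
    have hbB : ∃ B : ℝ, 0 ≤ B ∧ ∀ w : W, ‖(b w : E)‖ ≤ B * ‖w‖ := by
      obtain ⟨g, hg⟩ : ∃ g : W →L[ℝ] S, ∀ w, g w = b w := ⟨LinearMap.toContinuousLinearMap b, fun _ => rfl⟩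
      refine ⟨‖g‖, g.opNorm_nonneg, fun w => ?_⟩
      have h1 := g.le_opNorm w
      rw [hg] at h1
      exact h1
    obtain ⟨B, hB0, hB⟩ := hbB
    -- no bounded forward orbits of `d`
    have claim : ∀ w : W, (∃ D : ℝ, ∀ i : ℕ, ‖(d ^ i) w‖ ≤ D) → w = 0 := by
      rintro w ⟨D, hD⟩
      have hD0 : 0 ≤ D := (norm_nonneg _).trans (hD 0)
      have h1μ : 0 < 1 - μ := by linarith
      obtain ⟨Q, hQ⟩ : ∃ Q : ℝ, Q = C * (B * D) / (1 - μ) := ⟨_, rfl⟩
      have hQμ : Q * μ + C * (B * D) = Q := by rw [hQ]; field_simp; ring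
      have key : ∀ i : ℕ, (A ^ (i : ℤ)) w - ((d ^ i) w : E) ∈ S ∧
          ∀ l : ℕ, ‖(A ^ (l : ℤ)) ((A ^ (i : ℤ)) w - ((d ^ i) w : E))‖ ≤ Q * μ ^ l := by
        intro i
        induction i with
        | zero =>
          rw [Nat.cast_zero, z0, pow_zero]
          simp only [Module.End.one_apply, sub_self, map_zero, norm_zero]
          refine ⟨S.zero_mem, fun l => ?_⟩
          have : 0 ≤ Q := by rw [hQ]; positivity
          positivity
        | succ i ih =>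
          obtain ⟨h1, h2⟩ := ih
          have e1 : (A ^ ((i + 1 : ℕ) : ℤ)) w - ((d ^ (i + 1)) w : E) =
              A ((A ^ (i : ℤ)) w - ((d ^ i) w : E)) + (b ((d ^ i) w) : E) := by
            rw [Nat.cast_succ, zsucc, map_sub, hAw, pow_succ', Module.End.mul_apply]
            abel
          rw [e1]
          refine ⟨S.add_mem (hSA _ h1) (b _).2, fun l => ?_⟩
          rw [map_add, ← zsucc', ← Nat.cast_succ]
          refine (norm_add_le _ _).trans ?_
          have h3 := h2 (l + 1)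
          have h4 : ‖(A ^ (l : ℤ)) (b ((d ^ i) w) : E)‖ ≤ C * μ ^ l * (B * D) := by
            refine (hcon _ (b _).2 l).trans ?_
            apply mul_le_mul_of_nonneg_left _ (by positivity)
            exact (hB _).trans (mul_le_mul_of_nonneg_left (hD i) hB0)
          calc _ ≤ Q * μ ^ (l + 1) + C * μ ^ l * (B * D) := add_le_add h3 h4
            _ = (Q * μ + C * (B * D)) * μ ^ l := by ring
            _ = Q * μ ^ l := by rw [hQμ]
      have hwS : (w : E) ∈ S := by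
        rw [hS]
        refine ⟨Q + D, fun i hi => ?_⟩
        obtain ⟨j, rfl⟩ := Int.eq_ofNat_of_zero_le hi
        have h1 := (key j).2 0
        rw [Nat.cast_zero, z0, pow_zero, mul_one] at h1
        have h2 : (A ^ (j : ℤ)) (w : E) = ((A ^ (j : ℤ)) w - ((d ^ j) w : E)) + ((d ^ j) w : E) := by
          abel
        rw [h2]
        exact (norm_add_le _ _).trans (add_le_add h1 (hD j))
      have h3 := Submodule.disjoint_def.1 hW.disjoint w hwS w.2
      exact Subtype.ext h3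
    have hinj : Function.Injective d := by
      rw [← LinearMap.ker_eq_bot, LinearMap.ker_eq_bot']
      intro w hw
      apply claim w
      refine ⟨‖w‖, fun i => ?_⟩
      rcases Nat.eq_zero_or_pos i with rfl | hi
      · rw [pow_zero, Module.End.one_apply]
      · obtain ⟨j, rfl⟩ : ∃ j, i = j + 1 := ⟨i - 1, by omega⟩
        rw [pow_succ, Module.End.mul_apply, hw, map_zero, norm_zero]
        exact norm_nonneg _
    obtain ⟨dL, hdL⟩ : ∃ dL : W ≃L[ℝ] W, ∀ w, dL w = d w :=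
      ⟨(LinearEquiv.ofInjectiveEndo d hinj).toContinuousLinearEquiv, fun w => rfl⟩
    have hdLi : ∀ (i : ℕ) (w : W), (dL ^ (i : ℤ)) w = (d ^ i) w := by
      intro i w
      induction i with
      | zero => rw [Nat.cast_zero, z0, pow_zero, Module.End.one_apply]
      | succ i ih => rw [Nat.cast_succ, zsucc, ih, hdL, pow_succ', Module.End.mul_apply]
    obtain ⟨K, hK0, hK⟩ := back dL (by
      rintro w ⟨D, hD⟩
      exact claim w ⟨D, fun i => by rw [← hdLi]; exact hD _ (Int.natCast_nonneg i)⟩)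
    -- the backward steps
    have hbk : ∀ (i : ℕ) (w : W), d ((dL ^ (-((i + 1 : ℕ) : ℤ))) w) = (dL ^ (-(i : ℤ))) w := by
      intro i w
      rw [← hdL, ← zsucc]
      congr 2
      push_cast
      ring
    -- the linear equation
    obtain ⟨T, hT⟩ : ∃ T : W →ₗ[ℝ] S, ∀ w : W, T (d w) - a (T w) = b w := by
      let L : (W →ₗ[ℝ] S) →ₗ[ℝ] (W →ₗ[ℝ] S) :=
        { toFun := fun T => T ∘ₗ d - a ∘ₗ T
          map_add' := fun T T' => by
            ext w
            simp only [LinearMap.sub_apply, LinearMap.comp_apply, LinearMap.add_apply, map_add]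
            push_cast
            abel
          map_smul' := fun c T => by
            ext w
            simp only [LinearMap.sub_apply, LinearMap.comp_apply, LinearMap.smul_apply, map_smul,
              RingHom.id_apply, smul_sub] }
      have hLinj : Function.Injective L := by
        rw [← LinearMap.ker_eq_bot, LinearMap.ker_eq_bot']
        intro T hT
        have hT1 : ∀ w : W, T (d w) = a (T w) := by
          intro w
          have h1 : (L T) w = 0 := by rw [hT]; rfl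
          have h2 : T (d w) - a (T w) = 0 := h1
          exact sub_eq_zero.1 h2
        have hT2 : ∀ (i : ℕ) (w : W), (T w : E) = (A ^ (i : ℤ)) (T ((dL ^ (-(i : ℤ))) w)) := by
          intro i
          induction i with
          | zero => intro w; rw [Nat.cast_zero, neg_zero, z0, z0]
          | succ i ih =>
            intro w
            rw [ih w, ← hbk, hT1, ha, Nat.cast_succ, zsucc']
        ext w
        have h3 : Tendsto (fun i : ℕ => C * μ ^ i * (‖LinearMap.toContinuousLinearMap T‖ * (K * ‖w‖)))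
            atTop (𝓝 0) := by
          have h4 := (tendsto_pow_atTop_nhds_zero_of_lt_one hμ0.le hμ1)
          have h5 := (h4.const_mul C).mul_const (‖LinearMap.toContinuousLinearMap T‖ * (K * ‖w‖))
          rw [mul_zero, zero_mul] at h5
          exact h5
        have h6 : ‖(T w : E)‖ ≤ 0 := by
          refine ge_of_tendsto' h3 fun i => ?_
          rw [hT2 i w]
          refine (hcon _ (T _).2 i).trans ?_
          apply mul_le_mul_of_nonneg_left _ (by positivity)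
          refine ((LinearMap.toContinuousLinearMap T).le_opNorm _).trans ?_
          exact mul_le_mul_of_nonneg_left (hK w i) (norm_nonneg _)
        rw [norm_le_zero_iff.1 h6]
        rfl
      obtain ⟨T, hT⟩ := (LinearMap.injective_iff_surjective.1 hLinj) b
      refine ⟨T, fun w => ?_⟩
      have h1 : (L T) w = b w := by rw [hT]
      exact h1
    -- the graph of `T` consists of bounded backward orbits
    have hstep : ∀ w : W, A ((w : E) + T w) = (d w : E) + T (d w) := by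
      intro w
      rw [map_add, hAw, ← ha, ← hT w]
      push_cast
      abel
    have horb : ∀ (i : ℕ) (w : W), (A ^ (-(i : ℤ))) ((w : E) + T w) =
        ((dL ^ (-(i : ℤ))) w : E) + T ((dL ^ (-(i : ℤ))) w) := by
      intro i w
      have h1 : (A ^ (i : ℤ)) (((dL ^ (-(i : ℤ))) w : E) + T ((dL ^ (-(i : ℤ))) w)) =
          (w : E) + T w := by
        induction i with
        | zero => rw [Nat.cast_zero, neg_zero, z0, z0]
        | succ i ih =>
          rw [Nat.cast_succ, zsucc', hstep, ← Nat.cast_succ, hbk]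
          exact ih
      rw [← h1, ← zadd, neg_add_cancel, z0]
    rw [codisjoint_iff, eq_top_iff]
    intro v _
    obtain ⟨s, hs⟩ : ∃ s : S, s = S.projectionOnto W hW v := ⟨_, rfl⟩
    obtain ⟨w, hw⟩ : ∃ w : W, w = W.projectionOnto S hW.symm v := ⟨_, rfl⟩
    have hv : (s : E) + w = v := by
      rw [hs, hw]
      exact Submodule.projection_add_projection_eq_self hW v
    rw [Submodule.mem_sup]
    refine ⟨(s - T w : S), (s - T w : S).2, (w : E) + T w, ?_, ?_⟩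
    · refine ⟨(1 + ‖LinearMap.toContinuousLinearMap T‖) * (K * ‖w‖), fun i hi => ?_⟩
      obtain ⟨j, hj⟩ := Int.eq_ofNat_of_zero_le (show 0 ≤ -i by
        have : i ≤ 0 := hi
        omega)
      have hi' : i = -(j : ℤ) := by omega
      rw [hi', horb]
      refine (norm_add_le _ _).trans ?_
      have h1 := hK w j
      have h2 := (LinearMap.toContinuousLinearMap T).le_opNorm ((dL ^ (-(j : ℤ))) w)
      have h3 : ‖((LinearMap.toContinuousLinearMap T) ((dL ^ (-(j : ℤ))) w) : S)‖ =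
        ‖(T ((dL ^ (-(j : ℤ))) w) : E)‖ := rfl
      rw [h3] at h2
      have h4 : ‖(((dL ^ (-(j : ℤ))) w : W) : E)‖ ≤ K * ‖w‖ := h1
      have h5 := mul_le_mul_of_nonneg_left h1 (norm_nonneg (LinearMap.toContinuousLinearMap T))
      linarith
    · push_cast
      rw [← hv]
      abel

end

end Run7.h619.LA
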