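import Pool.Agent.Run7.h619.AX.LA

/-!
# Continuous one-parameter groups of linear maps without bounded orbits
-/

set_option autoImplicit false
set_option linter.unusedSectionVars false

open Filter Set Metric
open scoped Topology

namespace Run7.h619.LA

variable {E : Type*} [NormedAddCommGroup E] [NormedSpace ℝ E]

/-- a continuous one-parameter group of linear maps -/
structure IsOneP (P : ℝ → E →L[ℝ] E) : Prop where
  zero : ∀ v, P 0 v = v
  add : ∀ s t v, P (s + t) v = P s (P t v)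
  cont : Continuous P

theorem IsOneP.neg {P : ℝ → E →L[ℝ] E} (H : IsOneP P) : IsOneP (fun t => P (-t)) where
  zero := fun v => by rw [neg_zero, H.zero]
  add := fun s t v => by rw [neg_add, H.add]
  cont := H.cont.comp continuous_neg

theorem IsOneP.bound {P : ℝ → E →L[ℝ] E} (H : IsOneP P) (R : ℝ) :
    ∃ K : ℝ, 1 ≤ K ∧ ∀ s, |s| ≤ R → ∀ w, ‖P s w‖ ≤ K * ‖w‖ := by
  obtain ⟨K, hK⟩ := (isCompact_Icc (a := -R) (b := R)).exists_bound_of_continuousOn
    H.cont.continuousOn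
  refine ⟨max 1 K, le_max_left _ _, fun s hs w => ?_⟩
  exact ((P s).le_opNorm w).trans (mul_le_mul_of_nonneg_right
    ((hK s (abs_le.1 hs)).trans (le_max_right _ _)) (norm_nonneg _))

theorem IsOneP.decay {P : ℝ → E →L[ℝ] E} (H : IsOneP P) {a C μ l R K T : ℝ} (ha : 0 < a)
    (hC : 0 ≤ C) (hμ : 0 < μ) (hl : 0 ≤ l) (hlμ : μ ≤ Real.exp (-l * a)) (hK1 : 1 ≤ K)
    (hK : ∀ s, |s| ≤ R → ∀ w, ‖P s w‖ ≤ K * ‖w‖) (haR : a ≤ R) (hTR : T ≤ R) (v : E)
    (hv : ∀ i : ℕ, ‖P (i * a) v‖ ≤ C * μ ^ i * ‖v‖) (t : ℝ) (ht : -T ≤ t) :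
    ‖P t v‖ ≤ K * (C + 1) * Real.exp (l * a) * Real.exp (-l * t) * ‖v‖ := by
  have hexp : 1 ≤ Real.exp (l * a) := Real.one_le_exp (by positivity)
  rcases le_or_gt 0 t with h0 | h0
  · obtain ⟨i, hi⟩ : ∃ i : ℕ, i = ⌊t / a⌋₊ := ⟨_, rfl⟩
    have h1 : (i : ℝ) ≤ t / a := by rw [hi]; exact Nat.floor_le (by positivity)
    have h2 : t / a < i + 1 := by rw [hi]; exact Nat.lt_floor_add_one _
    rw [le_div_iff₀ ha] at h1
    rw [div_lt_iff₀ ha] at h2
    have e1 : t = (t - i * a) + i * a := by ring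
    rw [e1, H.add, ← e1]
    have h3 : |t - i * a| ≤ R := by
      rw [abs_of_nonneg (by linarith)]
      linarith
    refine (hK _ h3 _).trans ?_
    have h4 : μ ^ i ≤ Real.exp (l * a) * Real.exp (-l * t) := by
      refine (pow_le_pow_left₀ hμ.le hlμ i).trans ?_
      rw [← Real.exp_nat_mul, ← Real.exp_add]
      apply Real.exp_le_exp.2
      have : l * t ≤ l * ((i + 1) * a) := mul_le_mul_of_nonneg_left h2.le hl
      linarith
    have h5 : C * μ ^ i ≤ (C + 1) * (Real.exp (l * a) * Real.exp (-l * t)) := by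
      have h6 : 0 ≤ μ ^ i := by positivity
      have h7 := mul_le_mul_of_nonneg_left h4 (show 0 ≤ C + 1 by linarith)
      linarith
    calc K * ‖P (i * a) v‖ ≤ K * (C * μ ^ i * ‖v‖) :=
          mul_le_mul_of_nonneg_left (hv i) (by linarith)
      _ ≤ K * ((C + 1) * (Real.exp (l * a) * Real.exp (-l * t)) * ‖v‖) := by
          apply mul_le_mul_of_nonneg_left _ (by linarith)
          exact mul_le_mul_of_nonneg_right h5 (norm_nonneg _)
      _ = _ := by ring
  · have h3 : |t| ≤ R := by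
      rw [abs_of_neg h0]
      linarith
    refine (hK _ h3 _).trans ?_
    apply mul_le_mul_of_nonneg_right _ (norm_nonneg _)
    have h4 : 1 ≤ Real.exp (-l * t) := by
      apply Real.one_le_exp
      have := mul_nonneg hl (neg_nonneg.2 h0.le)
      linarith
    have h5 : 1 ≤ (C + 1) * Real.exp (l * a) * Real.exp (-l * t) := by
      have h6 : 1 ≤ (C + 1) * Real.exp (l * a) := one_le_mul_of_one_le_of_one_le (by linarith) hexp
      exact one_le_mul_of_one_le_of_one_le h6 h4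
    calc K = K * 1 := (mul_one K).symm
      _ ≤ K * ((C + 1) * Real.exp (l * a) * Real.exp (-l * t)) :=
          mul_le_mul_of_nonneg_left h5 (by linarith)
      _ = _ := by ring

/-- **Splitting of one-parameter groups.** -/
theorem IsOneP.split [FiniteDimensional ℝ E] {P : ℝ → E →L[ℝ] E} (H : IsOneP P) (a : ℝ) (ha : 0 < a)
    (hyp : ∀ v, (∃ C : ℝ, ∀ i : ℤ, ‖P (i * a) v‖ ≤ C) → v = 0) :
    ∃ (Es Eu : Submodule ℝ E), IsCompl Es Eu ∧ (∀ t, ∀ v ∈ Es, P t v ∈ Es) ∧
      (∀ t, ∀ v ∈ Eu, P t v ∈ Eu) ∧ ∃ l : ℝ, 0 < l ∧ ∀ T : ℝ, ∃ C : ℝ, 0 < C ∧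
        (∀ t, -T ≤ t → ∀ v ∈ Es, ‖P t v‖ ≤ C * Real.exp (-l * t) * ‖v‖) ∧
        ∀ t, t ≤ T → ∀ v ∈ Eu, ‖P t v‖ ≤ C * Real.exp (l * t) * ‖v‖ := by
  obtain ⟨A, hA, hA'⟩ : ∃ A : E ≃L[ℝ] E, (∀ v, A v = P a v) ∧ ∀ v, A⁻¹ v = P (-a) v :=
    ⟨ContinuousLinearEquiv.equivOfInverse (P a) (P (-a))
      (fun v => by rw [← H.add, neg_add_cancel, H.zero])
      (fun v => by rw [← H.add, add_neg_cancel, H.zero]), fun v => rfl, fun v => rfl⟩
  have hAi : ∀ (i : ℤ) (v : E), (A ^ i) v = P (i * a) v := by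
    intro i v
    induction i using Int.induction_on with
    | zero => rw [z0, Int.cast_zero, zero_mul, H.zero]
    | succ i ih =>
      rw [zsucc, ih, hA, ← H.add]
      congr 2
      push_cast
      ring
    | pred i ih =>
      have e : (-(i : ℤ) - 1) = -1 + -(i : ℤ) := by ring
      rw [e, zadd, ih, zpow_neg_one, hA', ← H.add]
      congr 2
      push_cast
      ring
  have hcomm : ∀ s t v, P s (P t v) = P t (P s v) := fun s t v => by
    rw [← H.add, ← H.add, add_comm]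
  have hinv : ∀ (J : Set ℤ) (t : ℝ), ∀ v ∈ Sub A J, P t v ∈ Sub A J := by
    rintro J t v ⟨C, hC⟩
    refine ⟨‖P t‖ * C, fun i hi => ?_⟩
    rw [hAi, hcomm, ← hAi]
    exact ((P t).le_opNorm _).trans (mul_le_mul_of_nonneg_left (hC i hi) (norm_nonneg _))
  have hyp' : ∀ v, Bd A univ v → v = 0 := by
    rintro v ⟨C, hC⟩
    exact hyp v ⟨C, fun i => by rw [← hAi]; exact hC i (mem_univ i)⟩
  have hinvA : ∀ (i : ℤ) (v : E), (A⁻¹ ^ i) v = (A ^ (-i)) v := fun i v => by rw [inv_zpow']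
  obtain ⟨C1, μ1, hC1, hμ1, hμ1', h1⟩ := contr A (Sub A {i | 0 ≤ i}) (fun v hv => by
    rw [hA]
    exact hinv _ _ v hv) (fun v hv => hv) hyp'
  obtain ⟨C2, μ2, hC2, hμ2, hμ2', h2⟩ := contr A⁻¹ (Sub A {i | i ≤ 0}) (fun v hv => by
    rw [hA']
    exact hinv _ _ v hv) (by
    rintro v ⟨C, hC⟩
    refine ⟨C, fun i hi => ?_⟩
    rw [hinvA]
    have : (0 : ℤ) ≤ i := hi
    exact hC _ (show -i ≤ 0 by omega)) (by
    rintro v ⟨C, hC⟩
    apply hyp' v
    refine ⟨C, fun i _ => ?_⟩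
    have h3 := hC (-i) (mem_univ _)
    rw [hinvA, neg_neg] at h3
    exact h3)
  refine ⟨_, _, LA.split A hyp', hinv _, hinv _, ?_⟩
  obtain ⟨l, hl⟩ : ∃ l : ℝ, l = min (-Real.log μ1) (-Real.log μ2) / a := ⟨_, rfl⟩
  have hlog1 : 0 < -Real.log μ1 := neg_pos.2 (Real.log_neg hμ1 hμ1')
  have hlog2 : 0 < -Real.log μ2 := neg_pos.2 (Real.log_neg hμ2 hμ2')
  have hl0 : 0 < l := by
    rw [hl]
    exact div_pos (lt_min hlog1 hlog2) ha
  have hla : l * a = min (-Real.log μ1) (-Real.log μ2) := by rw [hl]; field_simp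
  have e1 : μ1 ≤ Real.exp (-l * a) := by
    rw [← Real.log_le_iff_le_exp hμ1]
    have := min_le_left (-Real.log μ1) (-Real.log μ2)
    linarith
  have e2 : μ2 ≤ Real.exp (-l * a) := by
    rw [← Real.log_le_iff_le_exp hμ2]
    have := min_le_right (-Real.log μ1) (-Real.log μ2)
    linarith
  refine ⟨l, hl0, fun T => ?_⟩
  obtain ⟨K, hK1, hK⟩ := H.bound (max a T)
  refine ⟨K * (C1 + C2 + 1) * Real.exp (l * a), by positivity, fun t ht v hv => ?_,
    fun t ht v hv => ?_⟩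
  · have h3 := H.decay ha hC1.le hμ1 hl0.le e1 hK1 hK (le_max_left _ _) (le_max_right _ _) v
      (fun i => by
        have h4 := h1 v hv i
        rw [hAi, Int.cast_natCast] at h4
        exact h4) t ht
    refine h3.trans ?_
    apply mul_le_mul_of_nonneg_right _ (norm_nonneg _)
    apply mul_le_mul_of_nonneg_right _ (Real.exp_pos _).le
    apply mul_le_mul_of_nonneg_right _ (Real.exp_pos _).le
    apply mul_le_mul_of_nonneg_left _ (by linarith)
    linarith
  · have h3 := H.neg.decay ha hC2.le hμ2 hl0.le e2 hK1 (R := max a T) (fun s hs w => by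
        exact hK (-s) (by rw [abs_neg]; exact hs) w) (le_max_left _ _) (le_max_right _ _) v
      (fun i => by
        have h4 := h2 v hv i
        rw [hinvA, hAi] at h4
        push_cast at h4
        rw [neg_mul] at h4
        exact h4) (-t) (by linarith)
    rw [neg_neg] at h3
    have e3 : -l * -t = l * t := by ring
    rw [e3] at h3
    refine h3.trans ?_
    apply mul_le_mul_of_nonneg_right _ (norm_nonneg _)
    apply mul_le_mul_of_nonneg_right _ (Real.exp_pos _).le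
    apply mul_le_mul_of_nonneg_right _ (Real.exp_pos _).le
    apply mul_le_mul_of_nonneg_left _ (by linarith)
    linarith

end Run7.h619.LA
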