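import Pool.Agent.Run7.h619.AX.Tan

/-!
# Products: projections, norms, derivatives of skew products
-/

set_option autoImplicit false
set_option linter.unusedSectionVars false

open Filter Set Metric
open scoped Manifold ContDiff Topology

namespace Run7.h619.AX

open Pool.Agent.H718R2.G Pool.Agent.TH80.OMS Run7.h619.LA

/-- Diffeomorphisms from `M × B` to `N`. -/
abbrev PDiff (k b n : ℕ) (M B N : Type*) [TopologicalSpace M] [ChartedSpace (V k) M]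
    [TopologicalSpace B] [ChartedSpace (V b) B] [TopologicalSpace N] [ChartedSpace (V n) N] :=
  Diffeomorph ((𝓡 k).prod (𝓡 b)) (𝓡 n) (M × B) N ∞

section

variable {k b n : ℕ} {M B N : Type*} [TopologicalSpace M] [ChartedSpace (V k) M]
  [TopologicalSpace B] [ChartedSpace (V b) B] [TopologicalSpace N] [ChartedSpace (V n) N]
  (Θ : PDiff k b n M B N)

/-- the projection to `M` -/
noncomputable def pr1 (z : N) : M := (Θ.symm z).1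

/-- the projection to `B` -/
noncomputable def pr2 (z : N) : B := (Θ.symm z).2

theorem pr1_apply (p : M × B) : pr1 Θ (Θ p) = p.1 := by
  unfold pr1
  rw [Θ.symm_apply_apply]

theorem pr2_apply (p : M × B) : pr2 Θ (Θ p) = p.2 := by
  unfold pr2
  rw [Θ.symm_apply_apply]

theorem pr_eta (z : N) : Θ (pr1 Θ z, pr2 Θ z) = z := Θ.apply_symm_apply z

theorem pr1_smooth : ContMDiff (𝓡 n) (𝓡 k) ∞ (pr1 Θ) := contMDiff_fst.comp Θ.symm.contMDiff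

theorem pr2_smooth : ContMDiff (𝓡 n) (𝓡 b) ∞ (pr2 Θ) := contMDiff_snd.comp Θ.symm.contMDiff

theorem pr1_diff : MDifferentiable (𝓡 n) (𝓡 k) (pr1 Θ) := (pr1_smooth Θ).mdifferentiable (by simp)

theorem pr2_diff : MDifferentiable (𝓡 n) (𝓡 b) (pr2 Θ) := (pr2_smooth Θ).mdifferentiable (by simp)

theorem symm_deriv (z : N) (v : V n) :
    (mfderiv (𝓡 n) ((𝓡 k).prod (𝓡 b)) Θ.symm z v : V k × V b) =
      (Dv n k (pr1 Θ) z v, Dv n b (pr2 Θ) z v) := by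
  have h1 : (Θ.symm : N → M × B) = fun z => (pr1 Θ z, pr2 Θ z) := rfl
  have h2 := mfderiv_prodMk (x := z) (pr1_diff Θ z) (pr2_diff Θ z)
  rw [← h1] at h2
  have h3 := congrArg (fun L => L v) h2
  exact h3

theorem pr_inj (z : N) (v : V n) (h1 : Dv n k (pr1 Θ) z v = 0) (h2 : Dv n b (pr2 Θ) z v = 0) :
    v = 0 := by
  have h3 := symm_deriv Θ z v
  rw [h1, h2] at h3
  have h4 := (Θ.symm.mfderivToContinuousLinearEquiv (by simp) z).injective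
  apply h4
  have h5 : (Θ.symm.mfderivToContinuousLinearEquiv (by simp) z) v = 0 := h3
  rw [h5]
  exact (map_zero (Θ.symm.mfderivToContinuousLinearEquiv (by simp) z)).symm

theorem pr_surj (z : N) (u : V k) (w : V b) :
    ∃ v : V n, Dv n k (pr1 Θ) z v = u ∧ Dv n b (pr2 Θ) z v = w := by
  obtain ⟨v, hv⟩ := (Θ.symm.mfderivToContinuousLinearEquiv (by simp) z).surjective
    ((u, w) : V k × V b)
  have h3 := symm_deriv Θ z v
  have h4 : (mfderiv (𝓡 n) ((𝓡 k).prod (𝓡 b)) Θ.symm z v : V k × V b) = (u, w) := hv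
  rw [h4] at h3
  exact ⟨v, (congrArg Prod.fst h3).symm, (congrArg Prod.snd h3).symm⟩

/-- the derivative in the base -/
theorem base_deriv {G : N → N} {A : B → M → M} {g : B → B} (hG : MDifferentiable (𝓡 n) (𝓡 n) G)
    (hg : MDifferentiable (𝓡 b) (𝓡 b) g) (hmap : ∀ x y, G (Θ (x, y)) = Θ (A y x, g y)) (z : N)
    (v : V n) : Dv n b (pr2 Θ) (G z) (Dv n n G z v) = Dv b b g (pr2 Θ z) (Dv n b (pr2 Θ) z v) := by
  have e : pr2 Θ ∘ G = g ∘ pr2 Θ := by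
    funext z
    show pr2 Θ (G z) = g (pr2 Θ z)
    rw [← pr_eta Θ z, hmap, pr2_apply, pr2_apply]
  have h1 := Dv_comp (n := n) (k := n) (l := b) z (pr2_diff Θ (G z)) (hG z)
  have h2 := Dv_comp (n := n) (k := b) (l := b) z (hg (pr2 Θ z)) (pr2_diff Θ z)
  rw [e, h2] at h1
  exact (congrArg (fun L => L v) h1).symm

/-- the derivative in the fibre, at a fixed point -/
theorem fibre_deriv {G : N → N} {A : B → M → M} {g : B → B} (hG : MDifferentiable (𝓡 n) (𝓡 n) G)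
    (hA : ∀ y, MDifferentiable (𝓡 k) (𝓡 k) (A y)) (hmap : ∀ x y, G (Θ (x, y)) = Θ (A y x, g y))
    {x : M} (hx : ∀ y, A y x = x) (y : B) (v : V n) :
    Dv n k (pr1 Θ) (G (Θ (x, y))) (Dv n n G (Θ (x, y)) v) =
      Dv k k (A y) x (Dv n k (pr1 Θ) (Θ (x, y)) v) := by
  obtain ⟨f, hf⟩ : ∃ f : M × B → M, f = fun p => pr1 Θ (G (Θ p)) := ⟨_, rfl⟩
  have hΘ : MDifferentiable ((𝓡 k).prod (𝓡 b)) (𝓡 n) Θ := Θ.contMDiff.mdifferentiable (by simp)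
  have hfd : MDifferentiable ((𝓡 k).prod (𝓡 b)) (𝓡 k) f := by
    rw [hf]
    exact (pr1_diff Θ).comp (hG.comp hΘ)
  have hΘs : MDifferentiable (𝓡 n) ((𝓡 k).prod (𝓡 b)) Θ.symm :=
    Θ.symm.contMDiff.mdifferentiable (by simp)
  have e1 : pr1 Θ ∘ G = f ∘ Θ.symm := by
    funext z
    rw [hf]
    show pr1 Θ (G z) = pr1 Θ (G (Θ (Θ.symm z)))
    rw [Θ.apply_symm_apply]
  have hz : Θ.symm (Θ (x, y)) = (x, y) := Θ.symm_apply_apply _
  have h1 := mfderiv_prod_eq_add (hfd (x, y))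
  have e2 : (fun z : M × B => f (z.1, (x, y).2)) = A y ∘ Prod.fst := by
    funext z
    rw [hf]
    show pr1 Θ (G (Θ (z.1, y))) = A y z.1
    rw [hmap, pr1_apply]
  have e3 : (fun z : M × B => f ((x, y).1, z.2)) = fun _ => x := by
    funext z
    rw [hf]
    show pr1 Θ (G (Θ (x, z.2))) = x
    rw [hmap, pr1_apply, hx]
  rw [e2, e3] at h1
  obtain ⟨L1, hL1⟩ : ∃ L1 : V k × V b →L[ℝ] V k, L1 = mfderiv ((𝓡 k).prod (𝓡 b)) (𝓡 k) f (x, y) :=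
    ⟨_, rfl⟩
  obtain ⟨L2, hL2⟩ : ∃ L2 : V k × V b →L[ℝ] V k,
    L2 = mfderiv ((𝓡 k).prod (𝓡 b)) (𝓡 k) (A y ∘ Prod.fst) (x, y) := ⟨_, rfl⟩
  obtain ⟨L3, hL3⟩ : ∃ L3 : V k × V b →L[ℝ] V k,
    L3 = mfderiv ((𝓡 k).prod (𝓡 b)) (𝓡 k) (fun _ : M × B => x) (x, y) := ⟨_, rfl⟩
  have hc0 : L3 = 0 := by
    rw [hL3]
    exact mfderiv_const
  have h1' : L1 = L2 + L3 := by
    rw [hL1, hL2, hL3]
    exact h1
  rw [hc0, add_zero] at h1'
  have h2 : mfderiv ((𝓡 k).prod (𝓡 b)) (𝓡 k) (A y ∘ Prod.fst) (x, y) =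
      (mfderiv (𝓡 k) (𝓡 k) (A y) x).comp (mfderiv ((𝓡 k).prod (𝓡 b)) (𝓡 k) Prod.fst (x, y)) :=
    mfderiv_comp (x, y) (hA y x) mdifferentiableAt_fst
  have h3 : mfderiv (𝓡 n) (𝓡 k) (f ∘ Θ.symm) (Θ (x, y)) =
      (mfderiv ((𝓡 k).prod (𝓡 b)) (𝓡 k) f (Θ.symm (Θ (x, y)))).comp
        (mfderiv (𝓡 n) ((𝓡 k).prod (𝓡 b)) Θ.symm (Θ (x, y))) :=
    mfderiv_comp _ (hfd _) (hΘs _)
  have h4 := Dv_comp (n := n) (k := n) (l := k) (Θ (x, y)) (pr1_diff Θ (G (Θ (x, y)))) (hG _)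
  have h5 : Dv n k (pr1 Θ) (G (Θ (x, y))) (Dv n n G (Θ (x, y)) v) =
      Dv n k (pr1 Θ ∘ G) (Θ (x, y)) v := (congrArg (fun L => L v) h4).symm
  rw [h5, e1]
  have h6 : Dv n k (f ∘ Θ.symm) (Θ (x, y)) v =
      (mfderiv ((𝓡 k).prod (𝓡 b)) (𝓡 k) f (Θ.symm (Θ (x, y))) : V k × V b →L[ℝ] V k)
        (mfderiv (𝓡 n) ((𝓡 k).prod (𝓡 b)) Θ.symm (Θ (x, y)) v : V k × V b) :=
    congrArg (fun L => L v) h3
  have h7 : (mfderiv ((𝓡 k).prod (𝓡 b)) (𝓡 k) f (Θ.symm (Θ (x, y))) : V k × V b →L[ℝ] V k) =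
      (mfderiv ((𝓡 k).prod (𝓡 b)) (𝓡 k) f (x, y) : V k × V b →L[ℝ] V k) := by rw [hz]
  rw [h6, h7, symm_deriv]
  have h8 : (mfderiv ((𝓡 k).prod (𝓡 b)) (𝓡 k) f (x, y) : V k × V b →L[ℝ] V k) =
      (Dv k k (A y) x).comp (ContinuousLinearMap.fst ℝ (V k) (V b)) := by
    have h9 : L2 = (Dv k k (A y) x).comp (ContinuousLinearMap.fst ℝ (V k) (V b)) := by
      rw [hL2]
      have h10 := h2
      rw [mfderiv_fst] at h10
      exact h10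
    rw [← h9, ← h1', hL1]
  rw [h8]
  rfl

end

section

variable {k b n : ℕ} {M B N : Type*} [TopologicalSpace M] [ChartedSpace (V k) M]
  [IsManifold (𝓡 k) ∞ M] [TopologicalSpace B] [ChartedSpace (V b) B] [IsManifold (𝓡 b) ∞ B]
  [TopologicalSpace N] [ChartedSpace (V n) N] [IsManifold (𝓡 n) ∞ N] (Θ : PDiff k b n M B N)

/-- the sum of the norms of the two components -/
noncomputable def pnorm (q1 : TangentBundle (𝓡 k) M → ℝ) (q2 : TangentBundle (𝓡 b) B → ℝ)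
    (p : TangentBundle (𝓡 n) N) : ℝ :=
  q1 ⟨pr1 Θ p.1, Dv n k (pr1 Θ) p.1 p.2⟩ + q2 ⟨pr2 Θ p.1, Dv n b (pr2 Θ) p.1 p.2⟩

theorem IsTanNorm.nonneg {q : TangentBundle (𝓡 n) N → ℝ} (hq : IsTanNorm n N q) (x : N) (v : V n) :
    0 ≤ q ⟨x, v⟩ := by
  obtain ⟨c, C, hc, hC, h⟩ := hq.equiv x
  exact (mul_nonneg hc.le (norm_nonneg v)).trans (h v).1

theorem pnorm_norm {q1 : TangentBundle (𝓡 k) M → ℝ} {q2 : TangentBundle (𝓡 b) B → ℝ}
    (h1 : IsTanNorm k M q1) (h2 : IsTanNorm b B q2) : IsTanNorm n N (pnorm Θ q1 q2) where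
  cont := by
    have e1 : Continuous fun p : TangentBundle (𝓡 n) N =>
        q1 (tangentMap (𝓡 n) (𝓡 k) (pr1 Θ) p) :=
      h1.cont.comp ((pr1_smooth Θ).continuous_tangentMap (by simp))
    have e2 : Continuous fun p : TangentBundle (𝓡 n) N =>
        q2 (tangentMap (𝓡 n) (𝓡 b) (pr2 Θ) p) :=
      h2.cont.comp ((pr2_smooth Θ).continuous_tangentMap (by simp))
    exact e1.add e2
  add_le := by
    have key : ∀ (x : N) (v w : V n), pnorm Θ q1 q2 ⟨x, v + w⟩ ≤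
        pnorm Θ q1 q2 ⟨x, v⟩ + pnorm Θ q1 q2 ⟨x, w⟩ := by
      intro x v w
      have e1 := h1.add_le (pr1 Θ x) (Dv n k (pr1 Θ) x v) (Dv n k (pr1 Θ) x w)
      have e2 := h2.add_le (pr2 Θ x) (Dv n b (pr2 Θ) x v) (Dv n b (pr2 Θ) x w)
      have e3 : (Dv n k (pr1 Θ) x) (v + w) = Dv n k (pr1 Θ) x v + Dv n k (pr1 Θ) x w := map_add _ _ _
      have e4 : (Dv n b (pr2 Θ) x) (v + w) = Dv n b (pr2 Θ) x v + Dv n b (pr2 Θ) x w := map_add _ _ _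
      show q1 ⟨pr1 Θ x, Dv n k (pr1 Θ) x (v + w)⟩ + q2 ⟨pr2 Θ x, Dv n b (pr2 Θ) x (v + w)⟩ ≤
        (q1 ⟨pr1 Θ x, Dv n k (pr1 Θ) x v⟩ + q2 ⟨pr2 Θ x, Dv n b (pr2 Θ) x v⟩) +
        (q1 ⟨pr1 Θ x, Dv n k (pr1 Θ) x w⟩ + q2 ⟨pr2 Θ x, Dv n b (pr2 Θ) x w⟩)
      rw [e3, e4]
      refine (add_le_add e1 e2).trans (le_of_eq ?_)
      ring
    exact key
  smul := by
    have key : ∀ (x : N) (c : ℝ) (v : V n), pnorm Θ q1 q2 ⟨x, c • v⟩ =
        |c| * pnorm Θ q1 q2 ⟨x, v⟩ := by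
      intro x c v
      have e1 := h1.smul (pr1 Θ x) c (Dv n k (pr1 Θ) x v)
      have e2 := h2.smul (pr2 Θ x) c (Dv n b (pr2 Θ) x v)
      have e3 : (Dv n k (pr1 Θ) x) (c • v) = c • Dv n k (pr1 Θ) x v := map_smul _ _ _
      have e4 : (Dv n b (pr2 Θ) x) (c • v) = c • Dv n b (pr2 Θ) x v := map_smul _ _ _
      show q1 ⟨pr1 Θ x, Dv n k (pr1 Θ) x (c • v)⟩ + q2 ⟨pr2 Θ x, Dv n b (pr2 Θ) x (c • v)⟩ =
        |c| * (q1 ⟨pr1 Θ x, Dv n k (pr1 Θ) x v⟩ + q2 ⟨pr2 Θ x, Dv n b (pr2 Θ) x v⟩)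
      rw [e3, e4, mul_add]
      exact congrArg₂ (· + ·) e1 e2
    exact key
  pos := by
    have key : ∀ (x : N) (v : V n), v ≠ 0 → 0 < pnorm Θ q1 q2 ⟨x, v⟩ := by
      intro x v hv
      show 0 < q1 ⟨pr1 Θ x, Dv n k (pr1 Θ) x v⟩ + q2 ⟨pr2 Θ x, Dv n b (pr2 Θ) x v⟩
      have e1 := h1.nonneg (pr1 Θ x) (Dv n k (pr1 Θ) x v)
      have e2 := h2.nonneg (pr2 Θ x) (Dv n b (pr2 Θ) x v)
      by_cases h3 : Dv n k (pr1 Θ) x v = 0
      · have h4 : Dv n b (pr2 Θ) x v ≠ 0 := fun h4 => hv (pr_inj Θ x v h3 h4)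
        have := h2.pos (pr2 Θ x) _ h4
        linarith
      · have := h1.pos (pr1 Θ x) _ h3
        linarith
    exact key

end

end Run7.h619.AX
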