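import Pool.Agent.Run7.h619.AX.Defs
import Pool.Agent.Run7.h619.AX.OneP

/-!
# Derivatives as maps of the model spaces
-/

set_option autoImplicit false
set_option linter.unusedSectionVars false

open Filter Set Metric
open scoped Manifold ContDiff Topology

namespace Run7.h619.AX

open Pool.Agent.H718R2.G Pool.Agent.TH80.OMS Run7.h619.LA

section

variable {n k l : ℕ} {N M L : Type*} [TopologicalSpace N] [ChartedSpace (V n) N]
  [TopologicalSpace M] [ChartedSpace (V k) M] [TopologicalSpace L] [ChartedSpace (V l) L]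

/-- the derivative, as a map of the model spaces -/
noncomputable def Dv (n k : ℕ) {N M : Type*} [TopologicalSpace N] [ChartedSpace (V n) N]
    [TopologicalSpace M] [ChartedSpace (V k) M] (f : N → M) (x : N) : V n →L[ℝ] V k :=
  mfderiv (𝓡 n) (𝓡 k) f x

theorem Dv_comp {f : N → M} {g : M → L} (x : N) (hg : MDifferentiableAt (𝓡 k) (𝓡 l) g (f x))
    (hf : MDifferentiableAt (𝓡 n) (𝓡 k) f x) : Dv n l (g ∘ f) x = (Dv k l g (f x)).comp (Dv n k f x) :=
  mfderiv_comp x hg hf

theorem Dv_id (x : N) : Dv n n (id : N → N) x = ContinuousLinearMap.id ℝ (V n) := mfderiv_id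

theorem tan_eq (f : N → M) (x : N) (v : V n) :
    tangentMap (𝓡 n) (𝓡 k) f ⟨x, v⟩ = ⟨f x, Dv n k f x v⟩ := rfl

end

section

variable {k : ℕ} {M : Type*} [TopologicalSpace M] [ChartedSpace (V k) M] [IsManifold (𝓡 k) ∞ M]

/-- the derivatives of a flow at a fixed point -/
theorem oneP {φ : ℝ → M → M}
    (hφ : ContMDiff (𝓘(ℝ, ℝ).prod (𝓡 k)) (𝓡 k) ∞ (fun q : ℝ × M => φ q.1 q.2)) (h0 : ∀ x, φ 0 x = x)
    (hadd : ∀ s t x, φ (s + t) x = φ s (φ t x)) {x : M} (hx : ∀ t, φ t x = x) :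
    IsOneP (fun t => Dv k k (φ t) x) where
  zero := fun v => by
    have : φ 0 = id := funext h0
    rw [this, Dv_id]
    rfl
  add := fun s t v => by
    have hd : ∀ t, MDifferentiable (𝓡 k) (𝓡 k) (φ t) := fun t =>
      (hφ.comp (contMDiff_const.prodMk contMDiff_id)).mdifferentiable (by simp)
    have e : φ (s + t) = φ s ∘ φ t := funext fun y => hadd s t y
    rw [e, Dv_comp x (hd s _) (hd t _), hx]
    rfl
  cont := by
    rw [continuous_iff_continuousAt]
    intro t0
    have h1 : ContMDiffAt (𝓘(ℝ, ℝ).prod (𝓡 k)) (𝓡 k) 1 (Function.uncurry φ) (t0, x) :=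
      (hφ.contMDiffAt).of_le (by exact_mod_cast le_top)
    have h2 := ContMDiffAt.mfderiv (m := 0) φ (fun _ => x) h1 contMDiffAt_const (by simp)
    have h3 := h2.continuousAt
    refine h3.congr ?_
    filter_upwards with t
    rw [inTangentCoordinates_eq]
    · ext v : 1
      simp only [hx]
      show (tangentBundleCore (𝓡 k) M).coordChange (achart (V k) x) (achart (V k) x) x
        (mfderiv (𝓡 k) (𝓡 k) (φ t) x ((tangentBundleCore (𝓡 k) M).coordChange (achart (V k) x)
          (achart (V k) x) x v)) = _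
      rw [(tangentBundleCore (𝓡 k) M).coordChange_self, (tangentBundleCore (𝓡 k) M).coordChange_self]
      · rfl
      · exact mem_chart_source _ _
      · exact mem_chart_source _ _
    · exact mem_chart_source _ _
    · rw [hx, hx]
      exact mem_chart_source _ _

/-- there is a continuous norm on the tangent bundle -/
theorem exists_norm [T2Space M] [CompactSpace M] : ∃ q, IsTanNorm k M q := by
  obtain ⟨m, e, he, -, hinj⟩ := exists_embedding_euclidean_of_compact (I := 𝓡 k) (M := M)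
  refine ⟨fun p => ‖Dv k m e p.1 p.2‖, ?_, ?_, ?_, ?_⟩
  · have h1 : Continuous (tangentMap (𝓡 k) (𝓡 m) e) := he.continuous_tangentMap (by simp)
    have h2 : Continuous fun p : TangentBundle (𝓡 m) (V m) => (p.2 : V m) := by
      have h3 := (tangentBundleModelSpaceHomeomorph (𝓡 m)).continuous
      exact continuous_snd.comp h3
    have h4 : Continuous fun p : TangentBundle (𝓡 k) M => Dv k m e p.1 p.2 := h2.comp h1
    exact h4.norm
  · have key : ∀ (x : M) (v w : V k), ‖Dv k m e x (v + w)‖ ≤ ‖Dv k m e x v‖ + ‖Dv k m e x w‖ := by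
      intro x v w
      rw [map_add]
      exact norm_add_le _ _
    exact key
  · have key : ∀ (x : M) (c : ℝ) (v : V k), ‖Dv k m e x (c • v)‖ = |c| * ‖Dv k m e x v‖ := by
      intro x c v
      rw [map_smul, norm_smul, Real.norm_eq_abs]
    exact key
  · intro x v hv
    show 0 < ‖Dv k m e x v‖
    rw [norm_pos_iff]
    intro h0
    apply hv
    apply hinj x
    have h1 : mfderiv (𝓡 k) (𝓡 m) e x v = 0 := h0
    rw [h1]
    exact (map_zero (mfderiv (𝓡 k) (𝓡 m) e x)).symm

/-- on each tangent space the norm is equivalent to the one of the model space -/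
theorem IsTanNorm.equiv {q : TangentBundle (𝓡 k) M → ℝ} (hq : IsTanNorm k M q) (x : M) :
    ∃ c C : ℝ, 0 < c ∧ 0 < C ∧ ∀ v : V k, c * ‖v‖ ≤ q ⟨x, v⟩ ∧ q ⟨x, v⟩ ≤ C * ‖v‖ := by
  have h0 : q ⟨x, (0 : V k)⟩ = 0 := by
    have h1 := hq.smul x 0 (0 : V k)
    rw [abs_zero, zero_mul] at h1
    have h2 : ((0 : ℝ) • (0 : V k)) = 0 := zero_smul ℝ _
    have h3 : q ⟨x, ((0 : ℝ) • (0 : V k) : V k)⟩ = 0 := h1
    rwa [h2] at h3
  have hcont : Continuous fun v : V k => q ⟨x, v⟩ :=
    hq.cont.comp (FiberBundle.continuous_totalSpaceMk (V k) (TangentSpace (𝓡 k) : M → Type _) x)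
  rcases subsingleton_or_nontrivial (V k) with hs | hs
  · refine ⟨1, 1, one_pos, one_pos, fun v => ?_⟩
    rw [Subsingleton.elim v 0, norm_zero, h0]
    simp
  · have hne : (sphere (0 : V k) 1).Nonempty := NormedSpace.sphere_nonempty.2 zero_le_one
    obtain ⟨v1, hv1, hmin⟩ := (isCompact_sphere (0 : V k) 1).exists_isMinOn hne hcont.continuousOn
    obtain ⟨v2, hv2, hmax⟩ := (isCompact_sphere (0 : V k) 1).exists_isMaxOn hne hcont.continuousOn
    have hn : ∀ v ∈ sphere (0 : V k) 1, v ≠ 0 := by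
      intro v hv h
      rw [h, mem_sphere, dist_self] at hv
      exact zero_ne_one hv
    refine ⟨q ⟨x, v1⟩, q ⟨x, v2⟩, hq.pos x v1 (hn v1 hv1), hq.pos x v2 (hn v2 hv2), fun v => ?_⟩
    by_cases hv : v = 0
    · rw [hv, norm_zero, h0]
      simp
    · have hvn : 0 < ‖v‖ := norm_pos_iff.2 hv
      have hu : ‖v‖⁻¹ • v ∈ sphere (0 : V k) 1 := by
        rw [mem_sphere, dist_zero_right, norm_smul, norm_inv, norm_norm, inv_mul_cancel₀ hvn.ne']
      have e : q ⟨x, v⟩ = ‖v‖ * q ⟨x, (‖v‖⁻¹ • v : V k)⟩ := by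
        have h1 := hq.smul x ‖v‖ (‖v‖⁻¹ • v : V k)
        rw [abs_of_pos hvn] at h1
        rw [← h1]
        congr 2
        show v = ‖v‖ • (‖v‖⁻¹ • v : V k)
        rw [smul_smul, mul_inv_cancel₀ hvn.ne', one_smul]
      have h1 : q ⟨x, v1⟩ ≤ q ⟨x, (‖v‖⁻¹ • v : V k)⟩ := hmin hu
      have h2 : q ⟨x, (‖v‖⁻¹ • v : V k)⟩ ≤ q ⟨x, v2⟩ := hmax hu
      rw [e]
      constructor
      · rw [mul_comm]
        exact mul_le_mul_of_nonneg_left h1 hvn.le
      · rw [mul_comm]
        exact mul_le_mul_of_nonneg_right h2 hvn.le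

end

end Run7.h619.AX
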